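import Pool.Agent.Y96.DMC.Feq

/-!
# Vanishing of the twisted `L`-functions at `1/2`
-/

set_option autoImplicit false

open Real MeasureTheory UpperHalfPlane Filter Topology Set

namespace Pool.Agent.Y96.DMC

open Pool.Agent.Y672.DM

/-- the statement of the Mellin transform of the Bessel function (job DM-B) -/
def KBMellin (t : ℝ) : Prop :=
  ∀ {s : ℂ}, 0 < s.re →
    IntegrableOn (fun x : ℝ => (x : ℂ) ^ (s - 1) * (KB t x : ℂ)) (Set.Ioi 0) ∧
    ∫ x in Set.Ioi (0 : ℝ), (x : ℂ) ^ (s - 1) * (KB t x : ℂ) =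
      2 ^ (s - 1) * Complex.Gamma ((s + t * Complex.I) / 2) * Complex.Gamma ((s - t * Complex.I) / 2)

variable {t : ℝ} {b : ℕ → ℂ} {C : ℝ} {k : ℕ} {c : ℝ}

/-- The `FE`-pair of the series. -/
noncomputable def pair (t : ℝ) (b : ℕ → ℂ) (C : ℝ) (k : ℕ) (c : ℝ) (d : ℕ) (h0 : b 0 = 0)
    (hb : ∀ n, ‖b n‖ ≤ C * (n : ℝ) ^ k) (hc : 0 < c)
    (hfe : ∀ x : ℝ, 0 < x → F t b c (1 / x) = -(x : ℂ) ^ (1 + 2 * d) * F t b c x) :
    WeakFEPair ℂ where
  f := F t b c
  g := F t b c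
  k := ((1 + 2 * d : ℕ) : ℝ)
  ε := -1
  f₀ := 0
  g₀ := 0
  hf_int := (F_continuousOn h0 hb hc).locallyIntegrableOn measurableSet_Ioi
  hg_int := (F_continuousOn h0 hb hc).locallyIntegrableOn measurableSet_Ioi
  hk := by positivity
  hε := by norm_num
  h_feq := by
    intro x hx
    have hx : (0 : ℝ) < x := hx
    rw [hfe x hx, smul_eq_mul, Real.rpow_natCast]
    push_cast
    ring
  hf_top := by
    intro r
    simpa only [sub_zero] using F_top (t := t) h0 hb hc r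
  hg_top := by
    intro r
    simpa only [sub_zero] using F_top (t := t) h0 hb hc r

lemma mellin_entire (d : ℕ) (h0 : b 0 = 0) (hb : ∀ n, ‖b n‖ ≤ C * (n : ℝ) ^ k) (hc : 0 < c)
    (hfe : ∀ x : ℝ, 0 < x → F t b c (1 / x) = -(x : ℂ) ^ (1 + 2 * d) * F t b c x) :
    Differentiable ℂ (mellin (F t b c)) ∧ mellin (F t b c) ((1 / 2 : ℂ) + d) = 0 := by
  set P := pair t b C k c d h0 hb hc hfe with hP
  have hS : IsStrongFEPair P := ⟨rfl, rfl⟩
  have h1 : P.Λ = mellin (F t b c) := hS.Λ_eq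
  have h2 : P.symm.Λ = mellin (F t b c) := hS.symm_Λ_eq
  refine ⟨h1 ▸ hS.differentiable_Λ, ?_⟩
  have h3 := P.functional_equation ((1 / 2 : ℂ) + d)
  rw [h1, h2] at h3
  have h4 : (P.k : ℂ) - ((1 / 2 : ℂ) + d) = (1 / 2 : ℂ) + d := by
    have : P.k = ((1 + 2 * d : ℕ) : ℝ) := rfl
    rw [this]
    push_cast
    ring
  have h5 : P.ε = -1 := rfl
  rw [h4, h5, smul_eq_mul] at h3
  have h6 : (2 : ℂ) * mellin (F t b c) ((1 / 2 : ℂ) + d) = 0 := by linear_combination h3
  exact (mul_eq_zero.1 h6).resolve_left two_ne_zero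

/-- The `L`-function obtained from a functional equation of the series. -/
lemma exists_L (hmel : KBMellin t) (a' : ℕ → ℂ) (d : ℕ) (h0 : a' 0 = 0)
    (hb : ∀ n, ‖a' n * (n : ℂ) ^ d‖ ≤ C * (n : ℝ) ^ k) (hc : 0 < c)
    (hsum : ∀ σ : ℝ, 1 < σ → Summable fun n : ℕ => ‖a' n‖ * (n : ℝ) ^ (-σ))
    (hfe : ∀ x : ℝ, 0 < x → F t (fun n => a' n * (n : ℂ) ^ d) c (1 / x) =
      -(x : ℂ) ^ (1 + 2 * d) * F t (fun n => a' n * (n : ℂ) ^ d) c x) :
    ∃ L : ℂ → ℂ, Differentiable ℂ L ∧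
      (∀ s : ℂ, 1 < s.re → HasSum (fun n : ℕ => a' n * (n : ℂ) ^ (-s)) (L s)) ∧
      L (1 / 2) = 0 := by
  have hb0 : (fun n : ℕ => a' n * (n : ℂ) ^ d) 0 = 0 := by simp [h0]
  obtain ⟨hdiff, hzero⟩ := mellin_entire (t := t) (b := fun n => a' n * (n : ℂ) ^ d) d hb0 hb hc hfe
  set Lam : ℂ → ℂ := mellin (F t (fun n => a' n * (n : ℂ) ^ d) c) with hLam
  refine ⟨fun s => Lam (s + d) * (c : ℂ) ^ (s + d) * 2 ^ (1 - (s + d)) *
    (Complex.Gamma ((s + d + t * Complex.I) / 2))⁻¹ *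
    (Complex.Gamma ((s + d - t * Complex.I) / 2))⁻¹, ?_, ?_, ?_⟩
  · have hcC : (c : ℂ) ≠ 0 := by exact_mod_cast hc.ne'
    have hG : ∀ q : ℂ, Differentiable ℂ fun s : ℂ => (Complex.Gamma ((s + d + q) / 2))⁻¹ := by
      intro q
      have h1 := Complex.differentiable_one_div_Gamma
      have h2 : Differentiable ℂ fun s : ℂ => (s + d + q) / 2 := by fun_prop
      exact h1.comp h2
    have h3 : Differentiable ℂ fun s : ℂ => (c : ℂ) ^ (s + d) := by
      intro s
      exact (DifferentiableAt.const_cpow (by fun_prop) (Or.inl hcC))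
    have h4 : Differentiable ℂ fun s : ℂ => (2 : ℂ) ^ (1 - (s + d)) := by
      intro s
      exact (DifferentiableAt.const_cpow (by fun_prop) (Or.inl two_ne_zero))
    have h5 : Differentiable ℂ fun s : ℂ => Lam (s + d) :=
      hdiff.comp (by fun_prop)
    have h6 := hG (-(t * Complex.I))
    simp only [← sub_eq_add_neg] at h6
    exact (((h5.mul h3).mul h4).mul (hG (t * Complex.I))).mul h6
  · intro s hs
    set w : ℂ := s + d with hw
    have hwre : w.re = s.re + d := by rw [hw]; simp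
    have hwpos : 0 < w.re := by
      rw [hwre]
      have : (0 : ℝ) ≤ d := d.cast_nonneg
      linarith
    obtain ⟨hint, hval⟩ := hmel (s := w) hwpos
    have hval' : mellin (fun x : ℝ => (KB t x : ℂ)) w = 2 ^ (w - 1) *
        Complex.Gamma ((w + t * Complex.I) / 2) * Complex.Gamma ((w - t * Complex.I) / 2) := by
      rw [← hval, mellin]
      simp only [smul_eq_mul]
    have hconv : MellinConvergent (fun x : ℝ => (KB t x : ℂ)) w := by
      rw [MellinConvergent]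
      simpa only [smul_eq_mul] using hint
    have hs' : Summable fun n : ℕ => ‖a' n * (n : ℂ) ^ d‖ * (n : ℝ) ^ (-w.re) := by
      refine (hsum s.re hs).congr fun n => ?_
      rcases Nat.eq_zero_or_pos n with rfl | hn
      · simp [h0]
      · have hn0 : (0 : ℝ) < n := by exact_mod_cast hn
        rw [norm_mul, norm_pow, Complex.norm_natCast, hwre, neg_add, Real.rpow_add hn0,
          Real.rpow_neg hn0.le (d : ℝ), Real.rpow_natCast]
        field_simp
    have h1 := F_mellin (t := t) (b := fun n => a' n * (n : ℂ) ^ d) hb0 hc hconv hs'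
    rw [hval'] at h1
    have hG1 : Complex.Gamma ((w + t * Complex.I) / 2) ≠ 0 := by
      apply Complex.Gamma_ne_zero_of_re_pos
      have : ((w + t * Complex.I) / 2).re = w.re / 2 := by
        have h := Complex.div_ofReal_re (w + t * Complex.I) 2
        push_cast at h
        rw [h]
        simp
      rw [this]
      positivity
    have hG2 : Complex.Gamma ((w - t * Complex.I) / 2) ≠ 0 := by
      apply Complex.Gamma_ne_zero_of_re_pos
      have : ((w - t * Complex.I) / 2).re = w.re / 2 := by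
        have h := Complex.div_ofReal_re (w - t * Complex.I) 2
        push_cast at h
        rw [h]
        simp
      rw [this]
      positivity
    have h2 := ((((h1.mul_right ((c : ℂ) ^ w)).mul_right (2 ^ (1 - w))).mul_right
      ((Complex.Gamma ((w + t * Complex.I) / 2))⁻¹)).mul_right
      ((Complex.Gamma ((w - t * Complex.I) / 2))⁻¹))
    refine h2.congr_fun fun n => ?_
    have hcC : (c : ℂ) ≠ 0 := by exact_mod_cast hc.ne'
    rcases Nat.eq_zero_or_pos n with rfl | hn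
    · simp [h0]
    · have hn0 : (0 : ℝ) < n := by exact_mod_cast hn
      have hnC : (n : ℂ) ≠ 0 := by exact_mod_cast hn.ne'
      have h3 : ((c * n : ℝ) : ℂ) ^ (-w) = (c : ℂ) ^ (-w) * (n : ℂ) ^ (-w) := by
        have := Complex.mul_cpow_ofReal_nonneg hc.le hn0.le (-w)
        push_cast at this ⊢
        exact this
      have h4 : (c : ℂ) ^ (-w) * (c : ℂ) ^ w = 1 := by
        rw [← Complex.cpow_add _ _ hcC]; simp
      have h5 : (2 : ℂ) ^ (w - 1) * (2 : ℂ) ^ (1 - w) = 1 := by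
        rw [← Complex.cpow_add _ _ two_ne_zero]; simp
      have h6 : (n : ℂ) ^ (-w) * (n : ℂ) ^ d = (n : ℂ) ^ (-s) := by
        rw [← Complex.cpow_natCast, ← Complex.cpow_add _ _ hnC]
        congr 1
        rw [hw]
        ring
      rw [h3]
      have h7 : Complex.Gamma ((w + t * Complex.I) / 2) * (Complex.Gamma ((w + t * Complex.I) / 2))⁻¹ = 1 :=
        mul_inv_cancel₀ hG1
      have h8 : Complex.Gamma ((w - t * Complex.I) / 2) * (Complex.Gamma ((w - t * Complex.I) / 2))⁻¹ = 1 :=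
        mul_inv_cancel₀ hG2
      calc a' n * (n : ℂ) ^ (-s) = a' n * ((n : ℂ) ^ (-w) * (n : ℂ) ^ d) *
            ((c : ℂ) ^ (-w) * (c : ℂ) ^ w) * ((2 : ℂ) ^ (w - 1) * (2 : ℂ) ^ (1 - w)) *
            (Complex.Gamma ((w + t * Complex.I) / 2) * (Complex.Gamma ((w + t * Complex.I) / 2))⁻¹) *
            (Complex.Gamma ((w - t * Complex.I) / 2) * (Complex.Gamma ((w - t * Complex.I) / 2))⁻¹) := by
              rw [h4, h5, h6, h7, h8]; ring
        _ = _ := by ring
  · simp only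
    rw [hzero]
    ring

/-- **Job DM-C**: all quadratic twists of conductor prime to `5` vanish at the centre. -/
theorem twist_vanish_of_mellin (t : ℝ) (hmel : KBMellin t) (a : ℕ → ℂ) (h0 : a 0 = 0)
    (hsum : ∀ σ : ℝ, 1 < σ → Summable fun n : ℕ => ‖a n‖ * (n : ℝ) ^ (-σ))
    (hinv : ∀ γ ∈ CongruenceSubgroup.Gamma0 25, ∀ z : ℍ, U t a ((γ • z : ℍ) : ℂ) = U t a z)
    (hfr : ∀ z : ℍ, U t a (-1 / (25 * (z : ℂ))) = - U t a z)
    {m : ℕ} [NeZero m] (hm : Nat.Coprime m 5) (χ : DirichletCharacter ℂ m) (hχ : χ.IsPrimitive)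
    (hq : χ ^ 2 = 1) :
    ∃ L : ℂ → ℂ, Differentiable ℂ L ∧
      (∀ s : ℂ, 1 < s.re → HasSum (fun n : ℕ => a n * χ n * (n : ℂ) ^ (-s)) (L s)) ∧
      L (1 / 2) = 0 := by
  -- polynomial bound
  obtain ⟨C, ha⟩ : ∃ C : ℝ, ∀ n, ‖a n‖ ≤ C * (n : ℝ) ^ 2 := by
    have hs := hsum 2 (by norm_num)
    refine ⟨∑' n : ℕ, ‖a n‖ * (n : ℝ) ^ (-(2 : ℝ)), fun n => ?_⟩
    rcases Nat.eq_zero_or_pos n with rfl | hn
    · simp [h0]
    · have hn0 : (0 : ℝ) < n := by exact_mod_cast hn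
      have h1 := hs.le_tsum n (fun j _ => by positivity)
      rw [Real.rpow_neg hn0.le, Real.rpow_two] at h1
      have h2 : (0 : ℝ) < (n : ℝ) ^ 2 := by positivity
      rwa [← div_eq_mul_inv, div_le_iff₀ h2] at h1
  have hm0 : (0 : ℝ) < m := by exact_mod_cast NeZero.pos m
  have hc : 0 < 2 * π / (5 * (m : ℝ)) := by positivity
  have h0' : a 0 * χ (0 : ℕ) = 0 := by simp [h0]
  have hsum' : ∀ σ : ℝ, 1 < σ → Summable fun n : ℕ => ‖a n * χ n‖ * (n : ℝ) ^ (-σ) := by
    intro σ hσ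
    refine Summable.of_nonneg_of_le (fun n => by positivity) (fun n => ?_) (hsum σ hσ)
    rw [norm_mul]
    calc ‖a n‖ * ‖χ n‖ * (n : ℝ) ^ (-σ) ≤ ‖a n‖ * 1 * (n : ℝ) ^ (-σ) := by
          gcongr
          exact norm_char_le χ _
      _ = _ := by ring
  -- parity
  have hpar : χ (-1) = 1 ∨ χ (-1) = -1 := by
    have h1 : χ (-1) * χ (-1) = 1 := by
      rw [← map_mul]; simp
    rcases mul_self_eq_one_iff.1 h1 with h | h
    · exact Or.inl h
    · exact Or.inr h
  rcases hpar with hev | hodd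
  · refine exists_L hmel (fun n => a n * χ n) 0 h0' (twist_bound ha χ 0) hc hsum' fun x hx => ?_
    have := even_feq (t := t) h0 ha hinv hfr hm χ hχ hq hev hx
    rw [this]
    ring
  · refine exists_L hmel (fun n => a n * χ n) 1 h0' (twist_bound ha χ 1) hc hsum' fun x hx => ?_
    have := odd_feq (t := t) h0 ha hinv hfr hm χ hχ hq hodd hx
    rw [this]

end Pool.Agent.Y96.DMC
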