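import Pool.Agent.Y96.DMC.Twist

/-!
# Functional equations of the twisted series
-/

set_option autoImplicit false

open Real MeasureTheory UpperHalfPlane Filter Topology Set

namespace Pool.Agent.Y96.DMC

open Pool.Agent.Y672.DM Pool.Agent.W97.TW

variable {t : ℝ} {a : ℕ → ℂ} {C : ℝ} {k : ℕ}

lemma F_scale (b : ℕ → ℂ) (c d y : ℝ) : F t b (c * d) y = F t b c (d * y) := by
  unfold F
  refine tsum_congr fun n => ?_
  rw [show c * d * n * y = c * n * (d * y) by ring]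

lemma norm_char_le {m : ℕ} (χ : DirichletCharacter ℂ m) (r : ZMod m) : ‖χ r‖ ≤ 1 :=
  DirichletCharacter.norm_le_one χ r

lemma twist_bound {m : ℕ} (ha : ∀ n, ‖a n‖ ≤ C * (n : ℝ) ^ k) (χ : DirichletCharacter ℂ m) (d : ℕ)
    (n : ℕ) : ‖a n * χ n * (n : ℂ) ^ d‖ ≤ C * (n : ℝ) ^ (k + d) := by
  rw [norm_mul, norm_mul, norm_pow, Complex.norm_natCast]
  have hC : 0 ≤ C * (n : ℝ) ^ k := (norm_nonneg _).trans (ha n)
  calc ‖a n‖ * ‖χ n‖ * (n : ℝ) ^ d ≤ (C * (n : ℝ) ^ k) * 1 * (n : ℝ) ^ d := by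
        gcongr
        · exact ha n
        · exact norm_char_le χ _
    _ = _ := by ring

lemma even_feq (h0 : a 0 = 0) (ha : ∀ n, ‖a n‖ ≤ C * (n : ℝ) ^ k)
    (hinv : ∀ γ ∈ CongruenceSubgroup.Gamma0 25, ∀ z : ℍ, U t a ((γ • z : ℍ) : ℂ) = U t a z)
    (hfr : ∀ z : ℍ, U t a (-1 / (25 * (z : ℂ))) = - U t a z)
    {m : ℕ} [NeZero m] (hm : Nat.Coprime m 5) (χ : DirichletCharacter ℂ m) (hχ : χ.IsPrimitive)
    (hq : χ ^ 2 = 1) (hev : χ (-1) = 1) {x : ℝ} (hx : 0 < x) :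
    F t (fun n => a n * χ n * (n : ℂ) ^ 0) (2 * π / (5 * m)) (1 / x) =
      - (x : ℂ) * F t (fun n => a n * χ n * (n : ℂ) ^ 0) (2 * π / (5 * m)) x := by
  have hm0 : (0 : ℝ) < m := by exact_mod_cast NeZero.pos m
  have hmC : (m : ℂ) ≠ 0 := by exact_mod_cast (NeZero.ne m)
  have key : ∀ y : ℝ, 0 < y → V t a χ (y * Complex.I) =
      tau χ * (√y : ℝ) * F t (fun n => a n * χ n * (n : ℂ) ^ 0) (2 * π / (5 * m)) (5 * m * y) := by
    intro y hy
    have h1 := V_hasSum (x := 0) (y := y) (z := y * Complex.I) (t := t) h0 ha χ hχ hq hy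
      (by simp) (by simp)
    rw [← h1.tsum_eq, tsum_mul_left, ← F_scale]
    have h2 : 2 * π / (5 * (m : ℝ)) * (5 * m) = 2 * π := by field_simp
    rw [h2]
    unfold F
    congr 1
    refine tsum_congr fun n => ?_
    have h3 : E χ (2 * π * n * 0) = 1 := by
      unfold E
      rw [hev]
      simp
    rw [h3]
    ring
  set y : ℝ := x / (5 * m) with hy
  have hy0 : 0 < y := by positivity
  have h1 := V_feq (z := y * Complex.I) hinv hfr hm χ hq (by simpa using hy0)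
  have h2 : (-1 / (25 * (m : ℂ) ^ 2 * (y * Complex.I))) = ((1 / (25 * m ^ 2 * y) : ℝ) : ℂ) * Complex.I := by
    push_cast
    have hyC : (y : ℂ) ≠ 0 := by exact_mod_cast hy0.ne'
    field_simp
    rw [Complex.I_sq]
  rw [h2, key _ (by positivity), key _ hy0, hev] at h1
  have h3 : 5 * (m : ℝ) * y = x := by rw [hy]; field_simp
  have h4 : 5 * (m : ℝ) * (1 / (25 * m ^ 2 * y)) = 1 / x := by
    rw [hy]
    field_simp
    norm_num
  rw [h3, h4] at h1
  have h5 : √(1 / (25 * m ^ 2 * y)) = √y * (1 / x) := by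
    have h6 : 1 / (25 * (m : ℝ) ^ 2 * y) = y * (1 / x) ^ 2 := by
      rw [hy]
      field_simp
      norm_num
    rw [h6, Real.sqrt_mul hy0.le, Real.sqrt_sq (by positivity)]
  rw [h5] at h1
  have hτ := tau_ne_zero χ hχ
  have hsy : ((√y : ℝ) : ℂ) ≠ 0 := by exact_mod_cast (Real.sqrt_pos.2 hy0).ne'
  have hxC : (x : ℂ) ≠ 0 := by exact_mod_cast hx.ne'
  push_cast at h1
  have h7 : tau χ * (√y : ℝ) * (F t (fun n => a n * χ n * (n : ℂ) ^ 0) (2 * π / (5 * m)) (1 / x)) =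
      tau χ * (√y : ℝ) * (- (x : ℂ) * F t (fun n => a n * χ n * (n : ℂ) ^ 0) (2 * π / (5 * m)) x) := by
    field_simp at h1 ⊢
    linear_combination h1
  exact mul_left_cancel₀ (mul_ne_zero hτ hsy) h7

lemma tendsto_sin_div (c : ℝ) : Tendsto (fun x => sin (c * x) / x) (𝓝[≠] 0) (𝓝 c) := by
  have h1 : HasDerivAt (fun x : ℝ => sin (c * x)) (cos (c * 0) * (c * 1)) 0 :=
    (Real.hasDerivAt_sin (c * 0)).comp 0 ((hasDerivAt_id (0 : ℝ)).const_mul c)
  rw [hasDerivAt_iff_tendsto_slope] at h1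
  simp only [mul_zero, cos_zero, mul_one, one_mul] at h1
  refine h1.congr fun x => ?_
  rw [slope_def_field]
  simp

lemma abs_sin_div_le (c x : ℝ) : |sin (c * x) / x| ≤ |c| := by
  rcases eq_or_ne x 0 with rfl | hx
  · simp
  · rw [abs_div, div_le_iff₀ (abs_pos.2 hx), ← abs_mul]
    exact Real.abs_sin_le_abs

/-- limit of `V(X + iY)/X` as `X → 0` in the odd case -/
lemma odd_limit (h0 : a 0 = 0) (ha : ∀ n, ‖a n‖ ≤ C * (n : ℝ) ^ k)
    {m : ℕ} [NeZero m] (χ : DirichletCharacter ℂ m) (hχ : χ.IsPrimitive)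
    (hq : χ ^ 2 = 1) (hodd : χ (-1) = -1) {ι : Type} {l : Filter ι} {X Y : ι → ℝ} {y : ℝ}
    (hy : 0 < y) (hX : Tendsto X l (𝓝[≠] 0)) (hY : Tendsto Y l (𝓝 y)) :
    Tendsto (fun i => V t a χ ((X i : ℂ) + Y i * Complex.I) / (X i : ℂ)) l
      (𝓝 (tau χ * (√y : ℝ) * (2 * π * Complex.I) *
        F t (fun n => a n * χ n * (n : ℂ) ^ 1) (2 * π) y)) := by
  have hYpos : ∀ᶠ i in l, y / 2 < Y i ∧ Y i < 2 * y := by
    have := hY.eventually (Ioo_mem_nhds (show y / 2 < y by linarith) (show y < 2 * y by linarith))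
    exact this
  -- rewrite as sums
  have h1 : ∀ᶠ i in l, ∑' n : ℕ, (tau χ * (√(Y i) : ℝ) * Complex.I *
      (a n * χ n * (KB t (2 * π * n * Y i) : ℂ) * ((sin (2 * π * n * X i) / X i : ℝ) : ℂ))) =
      V t a χ ((X i : ℂ) + Y i * Complex.I) / (X i : ℂ) := by
    filter_upwards [hYpos] with i hi
    have hYi : 0 < Y i := by linarith [hi.1]
    have h2 := V_hasSum (x := X i) (y := Y i) (z := (X i : ℂ) + Y i * Complex.I) (t := t)
      h0 ha χ hχ hq hYi (by simp) (by simp)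
    rw [← (h2.div_const (X i : ℂ)).tsum_eq]
    refine tsum_congr fun n => ?_
    have h3 : E χ (2 * π * n * X i) = Complex.I * ((sin (2 * π * n * X i) : ℝ) : ℂ) := by
      unfold E
      rw [hodd, Complex.ofReal_sin, Complex.sin]
      have hI : Complex.I * Complex.I = -1 := Complex.I_mul_I
      rw [show -((2 * π * n * X i : ℝ) : ℂ) * Complex.I = -(((2 * π * n * X i : ℝ) : ℂ) * Complex.I) by ring]
      linear_combination ((Complex.exp (-(((2 * π * n * X i : ℝ) : ℂ) * Complex.I)) -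
        Complex.exp (((2 * π * n * X i : ℝ) : ℂ) * Complex.I)) / 2) * (-hI)
    rw [h3]
    push_cast
    ring
  refine Tendsto.congr' h1 ?_
  have h4 : tau χ * (√y : ℝ) * (2 * π * Complex.I) *
      F t (fun n => a n * χ n * (n : ℂ) ^ 1) (2 * π) y =
      ∑' n : ℕ, (tau χ * (√y : ℝ) * Complex.I *
      (a n * χ n * (KB t (2 * π * n * y) : ℂ) * ((2 * π * n : ℝ) : ℂ))) := by
    unfold F
    rw [← tsum_mul_left]
    refine tsum_congr fun n => ?_
    push_cast
    ring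
  rw [h4]
  have hb' := twist_bound ha χ 1
  set K : ℝ := |C| * √(2 * π / (2 * π * (y / 2))) with hK
  refine tendsto_tsum_of_dominated_convergence
    (bound := fun n : ℕ => ‖tau χ‖ * √(2 * y) * (2 * π) *
      (K * ((n : ℝ) ^ (k + 1) * exp (-(2 * π * (y / 2) * n))))) ?_ ?_ ?_
  · exact ((summable_pow_exp (k + 1) (by positivity)).mul_left _).mul_left _
  · intro n
    rcases Nat.eq_zero_or_pos n with rfl | hn
    · simp only [h0, zero_mul, mul_zero]
      exact tendsto_const_nhds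
    · have hn0 : (0 : ℝ) < n := by exact_mod_cast hn
      have h5 : Tendsto (fun i => ((√(Y i) : ℝ) : ℂ)) l (𝓝 ((√y : ℝ) : ℂ)) :=
        (Complex.continuous_ofReal.tendsto _).comp ((Real.continuous_sqrt.tendsto y).comp hY)
      have h6 : Tendsto (fun i => (KB t (2 * π * n * Y i) : ℂ)) l (𝓝 (KB t (2 * π * n * y) : ℂ)) := by
        refine (Complex.continuous_ofReal.tendsto _).comp ?_
        have hpos : 0 < 2 * π * n * y := by positivity
        exact (KB_continuousAt t hpos).tendsto.comp (hY.const_mul (2 * π * n))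
      have h7 : Tendsto (fun i => ((sin (2 * π * n * X i) / X i : ℝ) : ℂ)) l
          (𝓝 ((2 * π * n : ℝ) : ℂ)) :=
        (Complex.continuous_ofReal.tendsto _).comp ((tendsto_sin_div (2 * π * n)).comp hX)
      exact ((tendsto_const_nhds.mul h5).mul tendsto_const_nhds).mul
        ((tendsto_const_nhds.mul h6).mul h7)
  · filter_upwards [hYpos] with i hi n
    have hYi : 0 < Y i := by linarith [hi.1]
    have hn0 : (0 : ℝ) ≤ n := n.cast_nonneg
    have h8 := term_bound (t := t) (b := fun n => a n * χ n * (n : ℂ) ^ 1) (c := 2 * π)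
      (by simp [h0]) hb' (by positivity) (δ := y / 2) (by positivity) hi.1.le n
    rw [norm_mul, norm_mul, norm_mul, Complex.norm_I, mul_one, Complex.norm_real, Real.norm_eq_abs,
      abs_of_nonneg (Real.sqrt_nonneg _), norm_mul (a n * χ n * (KB t (2 * π * n * Y i) : ℂ)),
      Complex.norm_real, Real.norm_eq_abs]
    have h9 : |sin (2 * π * n * X i) / X i| ≤ 2 * π * n := by
      refine (abs_sin_div_le _ _).trans (le_of_eq (abs_of_nonneg (by positivity)))
    have h10 : √(Y i) ≤ √(2 * y) := Real.sqrt_le_sqrt hi.2.le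
    have h11 : exp (-(2 * π * n * Y i)) ≤ exp (-(2 * π * (y / 2) * n)) := by
      apply Real.exp_le_exp.2
      apply neg_le_neg
      calc 2 * π * (y / 2) * n = 2 * π * n * (y / 2) := by ring
        _ ≤ 2 * π * n * Y i := by
          have := hi.1.le
          gcongr
    have h12 : ‖a n * χ n * (KB t (2 * π * n * Y i) : ℂ)‖ * (n : ℝ) ≤
        K * ((n : ℝ) ^ (k + 1) * exp (-(2 * π * (y / 2) * n))) := by
      calc ‖a n * χ n * (KB t (2 * π * n * Y i) : ℂ)‖ * (n : ℝ) =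
          ‖a n * χ n * (n : ℂ) ^ 1 * (KB t (2 * π * n * Y i) : ℂ)‖ := by
            rw [pow_one, norm_mul, norm_mul, norm_mul, norm_mul, norm_mul, Complex.norm_natCast]
            ring
        _ ≤ _ := h8
        _ ≤ _ := by
            rw [hK]
            exact mul_le_mul_of_nonneg_left (mul_le_mul_of_nonneg_left h11 (by positivity))
              (by positivity)
    calc ‖tau χ‖ * √(Y i) * (‖a n * χ n * (KB t (2 * π * n * Y i) : ℂ)‖ *
          |sin (2 * π * n * X i) / X i|)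
        ≤ ‖tau χ‖ * √(2 * y) * (‖a n * χ n * (KB t (2 * π * n * Y i) : ℂ)‖ * (2 * π * n)) := by
          gcongr
      _ = ‖tau χ‖ * √(2 * y) * (2 * π) * (‖a n * χ n * (KB t (2 * π * n * Y i) : ℂ)‖ * n) := by ring
      _ ≤ _ := by gcongr

lemma odd_feq (h0 : a 0 = 0) (ha : ∀ n, ‖a n‖ ≤ C * (n : ℝ) ^ k)
    (hinv : ∀ γ ∈ CongruenceSubgroup.Gamma0 25, ∀ z : ℍ, U t a ((γ • z : ℍ) : ℂ) = U t a z)
    (hfr : ∀ z : ℍ, U t a (-1 / (25 * (z : ℂ))) = - U t a z)
    {m : ℕ} [NeZero m] (hm : Nat.Coprime m 5) (χ : DirichletCharacter ℂ m) (hχ : χ.IsPrimitive)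
    (hq : χ ^ 2 = 1) (hodd : χ (-1) = -1) {x : ℝ} (hx : 0 < x) :
    F t (fun n => a n * χ n * (n : ℂ) ^ 1) (2 * π / (5 * m)) (1 / x) =
      - (x : ℂ) ^ 3 * F t (fun n => a n * χ n * (n : ℂ) ^ 1) (2 * π / (5 * m)) x := by
  have hm0 : (0 : ℝ) < m := by exact_mod_cast NeZero.pos m
  have hmC : (m : ℂ) ≠ 0 := by exact_mod_cast (NeZero.ne m)
  set G : ℝ → ℂ := fun y => F t (fun n => a n * χ n * (n : ℂ) ^ 1) (2 * π) y with hG
  set y : ℝ := x / (5 * m) with hy
  have hy0 : 0 < y := by positivity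
  -- the first limit
  have hX1 : Tendsto (fun e : ℝ => e) (𝓝[≠] 0) (𝓝[≠] 0) := tendsto_id
  have hL1 := odd_limit (t := t) h0 ha χ hχ hq hodd (l := 𝓝[≠] (0 : ℝ)) (X := fun e => e)
    (Y := fun _ => y) hy0 hX1 tendsto_const_nhds
  -- the second limit
  set q : ℝ → ℝ := fun e => 1 / (25 * m ^ 2 * (e ^ 2 + y ^ 2)) with hqd
  have hqpos : ∀ e, 0 < q e := fun e => by rw [hqd]; positivity
  have hqc : Continuous q := by
    rw [hqd]
    refine continuous_const.div (by fun_prop) fun e => ?_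
    positivity
  have hq0 : Tendsto q (𝓝[≠] 0) (𝓝 (q 0)) := (hqc.tendsto 0).mono_left nhdsWithin_le_nhds
  have hX2 : Tendsto (fun e : ℝ => -(e * q e)) (𝓝[≠] 0) (𝓝[≠] 0) := by
    refine tendsto_nhdsWithin_iff.2 ⟨?_, ?_⟩
    · have : Tendsto (fun e : ℝ => -(e * q e)) (𝓝 0) (𝓝 (-(0 * q 0))) :=
        ((continuous_id.mul hqc).neg).tendsto 0
      rw [zero_mul, neg_zero] at this
      exact this.mono_left nhdsWithin_le_nhds
    · filter_upwards [self_mem_nhdsWithin] with e he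
      have he : e ≠ 0 := he
      exact neg_ne_zero.2 (mul_ne_zero he (hqpos e).ne')
  have hY2 : Tendsto (fun e : ℝ => y * q e) (𝓝[≠] 0) (𝓝 (y * q 0)) := hq0.const_mul y
  have hL2 := odd_limit (t := t) h0 ha χ hχ hq hodd (l := 𝓝[≠] (0 : ℝ))
    (X := fun e => -(e * q e)) (Y := fun e => y * q e) (y := y * q 0) (by
      have := hqpos 0
      positivity) hX2 hY2
  have hq0C : Tendsto (fun e : ℝ => -(q e : ℂ)) (𝓝[≠] 0) (𝓝 (-(q 0 : ℂ))) :=
    ((Complex.continuous_ofReal.tendsto _).comp hq0).neg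
  have hL3 := hL2.mul hq0C
  have hev : ∀ᶠ e : ℝ in 𝓝[≠] 0,
      V t a χ (((-(e * q e) : ℝ) : ℂ) + ((y * q e : ℝ) : ℂ) * Complex.I) / ((-(e * q e) : ℝ) : ℂ) *
        (-(q e : ℂ)) = V t a χ ((e : ℂ) + y * Complex.I) / (e : ℂ) := by
    filter_upwards [self_mem_nhdsWithin] with e he
    have he : e ≠ 0 := he
    have heC : (e : ℂ) ≠ 0 := by exact_mod_cast he
    have hqC : (q e : ℂ) ≠ 0 := by exact_mod_cast (hqpos e).ne'
    have h1 := V_feq (z := (e : ℂ) + y * Complex.I) hinv hfr hm χ hq (by simpa using hy0)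
    have h2 : -1 / (25 * (m : ℂ) ^ 2 * ((e : ℂ) + y * Complex.I)) =
        ((-(e * q e) : ℝ) : ℂ) + ((y * q e : ℝ) : ℂ) * Complex.I := by
      have h3 : ((e : ℂ) + y * Complex.I) ≠ 0 := by
        intro h
        have := congrArg Complex.im h
        simp at this
        exact hy0.ne' this
      have h4 : ((e : ℂ) ^ 2 + (y : ℂ) ^ 2) ≠ 0 := by
        have : (0 : ℝ) < e ^ 2 + y ^ 2 := by positivity
        exact_mod_cast this.ne'
      rw [hqd]
      push_cast
      have h25 : (25 : ℂ) * (m : ℂ) ^ 2 ≠ 0 := mul_ne_zero (by norm_num) (pow_ne_zero 2 hmC)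
      rw [div_eq_iff (mul_ne_zero h25 h3)]
      field_simp
      have hI := Complex.I_sq
      linear_combination ((y : ℂ) ^ 2) * (-hI)
    rw [h2, hodd, neg_neg, one_mul] at h1
    rw [h1]
    push_cast
    field_simp
  have hL4 := hL3.congr' hev
  have huniq := tendsto_nhds_unique hL4 hL1
  have hq0v : q 0 = 1 / (x ^ 2) := by
    rw [hqd, hy]
    simp only
    field_simp
    ring
  have hyq : y * q 0 = 1 / (25 * m ^ 2 * y) := by
    rw [hqd]
    simp only
    field_simp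
    ring
  -- rescale
  have hsc : ∀ v : ℝ, F t (fun n => a n * χ n * (n : ℂ) ^ 1) (2 * π) v =
      F t (fun n => a n * χ n * (n : ℂ) ^ 1) (2 * π / (5 * m)) (5 * m * v) := by
    intro v
    rw [← F_scale]
    congr 1
    field_simp
  rw [hsc, hsc] at huniq
  have h3 : 5 * (m : ℝ) * y = x := by rw [hy]; field_simp
  have h4 : 5 * (m : ℝ) * (y * q 0) = 1 / x := by
    rw [hyq, hy]
    field_simp
    norm_num
  have h5 : √(y * q 0) = √y * (1 / x) := by
    rw [hq0v, Real.sqrt_mul hy0.le]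
    congr 1
    rw [show 1 / x ^ 2 = (1 / x) ^ 2 by ring, Real.sqrt_sq (by positivity)]
  rw [h3, h4, h5, hq0v] at huniq
  have hτ := tau_ne_zero χ hχ
  have hsy : ((√y : ℝ) : ℂ) ≠ 0 := by exact_mod_cast (Real.sqrt_pos.2 hy0).ne'
  have hxC : (x : ℂ) ≠ 0 := by exact_mod_cast hx.ne'
  have hπ : (π : ℂ) ≠ 0 := by exact_mod_cast Real.pi_ne_zero
  have h6 : (tau χ * (√y : ℝ) * (2 * π * Complex.I)) *
      F t (fun n => a n * χ n * (n : ℂ) ^ 1) (2 * π / (5 * m)) (1 / x) =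
      (tau χ * (√y : ℝ) * (2 * π * Complex.I)) *
      (- (x : ℂ) ^ 3 * F t (fun n => a n * χ n * (n : ℂ) ^ 1) (2 * π / (5 * m)) x) := by
    push_cast at huniq
    field_simp at huniq ⊢
    linear_combination (-1) * huniq
  refine mul_left_cancel₀ ?_ h6
  exact mul_ne_zero (mul_ne_zero hτ hsy) (mul_ne_zero (mul_ne_zero two_ne_zero hπ) Complex.I_ne_zero)

end Pool.Agent.Y96.DMC
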