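import Pool.Agent.Y672.DM.Defs

/-!
# Elementary facts on the `K`-Bessel function `KB`: bound and continuity
-/

set_option autoImplicit false

open Real MeasureTheory Filter Topology Set

namespace Pool.Agent.Y96.DMC

open Pool.Agent.Y672.DM

lemma one_add_sq_le_cosh (v : ℝ) : 1 + v ^ 2 / 2 ≤ cosh v := by
  have h1 : cosh v = 1 + 2 * sinh (v / 2) ^ 2 := by
    have h := Real.cosh_two_mul (v / 2)
    rw [show 2 * (v / 2) = v by ring, Real.cosh_sq] at h
    linarith
  have h2 : (v / 2) ^ 2 ≤ sinh (v / 2) ^ 2 := by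
    rcases le_total 0 (v / 2) with h | h
    · exact pow_le_pow_left₀ h (Real.self_le_sinh_iff.2 h) 2
    · have h3 : sinh (v / 2) ≤ v / 2 := Real.sinh_le_self_iff.2 h
      nlinarith
  rw [h1]
  nlinarith

lemma exp_cosh_le {x : ℝ} (hx : 0 ≤ x) (v : ℝ) :
    exp (-(x * cosh v)) ≤ exp (-x) * exp (-(x / 2) * v ^ 2) := by
  rw [← Real.exp_add]
  apply Real.exp_le_exp.2
  have := mul_le_mul_of_nonneg_left (one_add_sq_le_cosh v) hx
  nlinarith

lemma integrable_gauss {x : ℝ} (hx : 0 < x) :
    Integrable (fun v : ℝ => exp (-x) * exp (-(x / 2) * v ^ 2)) :=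
  (integrable_exp_neg_mul_sq (by positivity)).const_mul _

lemma integrable_exp_cosh {x : ℝ} (hx : 0 < x) :
    Integrable (fun v : ℝ => exp (-(x * cosh v))) := by
  refine (integrable_gauss hx).mono' (by fun_prop) ?_
  refine Eventually.of_forall fun v => ?_
  rw [Real.norm_eq_abs, abs_of_pos (exp_pos _)]
  exact exp_cosh_le hx.le v

lemma KB_bound (t : ℝ) {x : ℝ} (hx : 0 < x) : |KB t x| ≤ √(2 * π / x) * exp (-x) := by
  have h1 : |KB t x| ≤ ∫ v : ℝ, exp (-x) * exp (-(x / 2) * v ^ 2) := by
    unfold KB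
    rw [← Real.norm_eq_abs]
    refine norm_integral_le_of_norm_le (integrable_gauss hx) ?_
    refine Eventually.of_forall fun v => ?_
    rw [norm_mul, Real.norm_eq_abs, Real.norm_eq_abs, abs_of_pos (exp_pos _)]
    calc exp (-(x * cosh v)) * |cos (t * v)| ≤ exp (-(x * cosh v)) * 1 := by
          gcongr
          exact abs_cos_le_one _
      _ ≤ _ := by
          rw [mul_one]
          exact exp_cosh_le hx.le v
  rw [integral_const_mul, integral_gaussian] at h1
  refine h1.trans (le_of_eq ?_)
  rw [mul_comm]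
  congr 2
  field_simp

lemma KB_continuousAt (t : ℝ) {x : ℝ} (hx : 0 < x) : ContinuousAt (KB t) x := by
  unfold KB
  refine continuousAt_of_dominated (bound := fun v => exp (-((x / 2) * cosh v))) ?_ ?_
    (integrable_exp_cosh (by positivity)) ?_
  · exact Eventually.of_forall fun y => by fun_prop
  · filter_upwards [lt_mem_nhds (show x / 2 < x by linarith)] with y hy
    refine Eventually.of_forall fun v => ?_
    rw [norm_mul, Real.norm_eq_abs, Real.norm_eq_abs, abs_of_pos (exp_pos _)]
    calc exp (-(y * cosh v)) * |cos (t * v)| ≤ exp (-(y * cosh v)) * 1 := by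
          gcongr
          exact abs_cos_le_one _
      _ ≤ _ := by
          rw [mul_one]
          apply Real.exp_le_exp.2
          have := Real.cosh_pos v
          nlinarith
  · refine Eventually.of_forall fun v => ?_
    fun_prop

lemma KB_continuousOn (t : ℝ) : ContinuousOn (KB t) (Ioi 0) :=
  fun _ hx => (KB_continuousAt t hx).continuousWithinAt

end Pool.Agent.Y96.DMC
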