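import Pool.Agent.Y96.DMC.KBasic

/-!
# Series of `K`-Bessel functions: convergence, continuity, decay, Mellin transform
-/

set_option autoImplicit false

open Real MeasureTheory Filter Topology Set

namespace Pool.Agent.Y96.DMC

open Pool.Agent.Y672.DM

/-- `∑ b_n KB(c n x)` -/
noncomputable def F (t : ℝ) (b : ℕ → ℂ) (c x : ℝ) : ℂ := ∑' n : ℕ, b n * (KB t (c * n * x) : ℂ)

section

variable {t : ℝ} {b : ℕ → ℂ} {C : ℝ} {k : ℕ} {c : ℝ}

lemma term_bound (h0 : b 0 = 0) (hb : ∀ n, ‖b n‖ ≤ C * (n : ℝ) ^ k) (hc : 0 < c) {δ x : ℝ}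
    (hδ : 0 < δ) (hx : δ ≤ x) (n : ℕ) :
    ‖b n * (KB t (c * n * x) : ℂ)‖ ≤
      |C| * √(2 * π / (c * δ)) * ((n : ℝ) ^ k * exp (-(c * n * x))) := by
  rcases Nat.eq_zero_or_pos n with rfl | hn
  · rw [h0, zero_mul, norm_zero]
    positivity
  · have hn0 : (0 : ℝ) < n := by exact_mod_cast hn
    have hn1 : (1 : ℝ) ≤ n := by exact_mod_cast hn
    have hx0 : 0 < x := hδ.trans_le hx
    have hpos : 0 < c * n * x := by positivity
    rw [norm_mul, Complex.norm_real, Real.norm_eq_abs]
    have h1 := KB_bound t hpos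
    have h2 : √(2 * π / (c * n * x)) ≤ √(2 * π / (c * δ)) := by
      apply Real.sqrt_le_sqrt
      apply div_le_div_of_nonneg_left (by positivity) (by positivity)
      calc c * δ = c * 1 * δ := by ring
        _ ≤ c * n * x := by gcongr
    have h3 : ‖b n‖ ≤ |C| * (n : ℝ) ^ k := (hb n).trans (by gcongr; exact le_abs_self C)
    calc ‖b n‖ * |KB t (c * n * x)| ≤
        (|C| * (n : ℝ) ^ k) * (√(2 * π / (c * δ)) * exp (-(c * n * x))) := by
          refine mul_le_mul h3 (h1.trans ?_) (abs_nonneg _) (by positivity)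
          gcongr
      _ = _ := by ring

lemma summable_pow_exp (k : ℕ) {r : ℝ} (hr : 0 < r) :
    Summable fun n : ℕ => (n : ℝ) ^ k * exp (-(r * n)) := by
  have := Real.summable_pow_mul_exp_neg_nat_mul k hr
  refine this.congr fun n => ?_
  congr 2
  ring

lemma F_summable (h0 : b 0 = 0) (hb : ∀ n, ‖b n‖ ≤ C * (n : ℝ) ^ k) (hc : 0 < c) {x : ℝ}
    (hx : 0 < x) : Summable fun n : ℕ => b n * (KB t (c * n * x) : ℂ) := by
  refine Summable.of_norm_bounded
    (g := fun n : ℕ => |C| * √(2 * π / (c * x)) * ((n : ℝ) ^ k * exp (-(c * n * x)))) ?_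
    (term_bound h0 hb hc hx le_rfl)
  refine Summable.mul_left _ ?_
  refine (summable_pow_exp k (r := c * x) (by positivity)).congr fun n => ?_
  congr 2
  ring

lemma F_hasSum (h0 : b 0 = 0) (hb : ∀ n, ‖b n‖ ≤ C * (n : ℝ) ^ k) (hc : 0 < c) {x : ℝ}
    (hx : 0 < x) : HasSum (fun n : ℕ => b n * (KB t (c * n * x) : ℂ)) (F t b c x) :=
  (F_summable h0 hb hc hx).hasSum

lemma F_continuousOn (h0 : b 0 = 0) (hb : ∀ n, ‖b n‖ ≤ C * (n : ℝ) ^ k) (hc : 0 < c) :
    ContinuousOn (F t b c) (Ioi 0) := by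
  intro x hx
  have hx : (0 : ℝ) < x := hx
  have h1 : ContinuousOn (F t b c) (Ioi (x / 2)) := by
    unfold F
    refine continuousOn_tsum (u := fun n : ℕ => |C| * √(2 * π / (c * (x / 2))) *
      ((n : ℝ) ^ k * exp (-(c * (x / 2) * n)))) ?_ ?_ ?_
    · intro n
      rcases Nat.eq_zero_or_pos n with rfl | hn
      · simp only [h0, zero_mul]
        exact continuousOn_const
      · have hn0 : (0 : ℝ) < n := by exact_mod_cast hn
        refine continuousOn_const.mul ?_
        refine Complex.continuous_ofReal.comp_continuousOn ?_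
        refine (KB_continuousOn t).comp (by fun_prop) ?_
        intro y hy
        have hy : x / 2 < y := hy
        have : 0 < y := by linarith
        show 0 < c * n * y
        positivity
    · exact (summable_pow_exp k (r := c * (x / 2)) (by positivity)).mul_left _
    · intro n y hy
      have hy : x / 2 < y := hy
      refine (term_bound h0 hb hc (by positivity) hy.le n).trans ?_
      have hn0 : (0 : ℝ) ≤ n := n.cast_nonneg
      have h2 : exp (-(c * n * y)) ≤ exp (-(c * (x / 2) * n)) := by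
        apply Real.exp_le_exp.2
        apply neg_le_neg
        calc c * (x / 2) * n = c * n * (x / 2) := by ring
          _ ≤ c * n * y := by gcongr
      exact mul_le_mul_of_nonneg_left (mul_le_mul_of_nonneg_left h2 (by positivity)) (by positivity)
  exact (h1.continuousAt (Ioi_mem_nhds (by linarith))).continuousWithinAt

lemma F_decay (h0 : b 0 = 0) (hb : ∀ n, ‖b n‖ ≤ C * (n : ℝ) ^ k) (hc : 0 < c) :
    ∃ D : ℝ, ∀ x : ℝ, 1 ≤ x → ‖F t b c x‖ ≤ D * exp (-(c * x)) := by
  refine ⟨∑' n : ℕ, |C| * √(2 * π / (c * 1)) * ((n : ℝ) ^ k * exp (-(c * n))) * exp c, ?_⟩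
  intro x hx
  have hs : Summable fun n : ℕ => |C| * √(2 * π / (c * 1)) * ((n : ℝ) ^ k * exp (-(c * n))) * exp c :=
    ((summable_pow_exp k hc).mul_left _).mul_right _
  have hs' := hs.mul_right (exp (-(c * x)))
  rw [← tsum_mul_right]
  refine tsum_of_norm_bounded hs'.hasSum fun n => ?_
  rcases Nat.eq_zero_or_pos n with rfl | hn
  · rw [h0, zero_mul, norm_zero]
    positivity
  · have hn1 : (1 : ℝ) ≤ n := by exact_mod_cast hn
    refine (term_bound h0 hb hc one_pos hx n).trans ?_
    have h1 : exp (-(c * n * x)) ≤ exp (-(c * n)) * exp c * exp (-(c * x)) := by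
      rw [← Real.exp_add, ← Real.exp_add]
      apply Real.exp_le_exp.2
      have : 0 ≤ c * ((n - 1) * (x - 1)) := by
        have h2 : (0 : ℝ) ≤ n - 1 := by linarith
        have h3 : (0 : ℝ) ≤ x - 1 := by linarith
        positivity
      nlinarith
    calc |C| * √(2 * π / (c * 1)) * ((n : ℝ) ^ k * exp (-(c * n * x)))
        ≤ |C| * √(2 * π / (c * 1)) * ((n : ℝ) ^ k * (exp (-(c * n)) * exp c * exp (-(c * x)))) := by
          gcongr
      _ = _ := by ring

lemma F_top (h0 : b 0 = 0) (hb : ∀ n, ‖b n‖ ≤ C * (n : ℝ) ^ k) (hc : 0 < c) (r : ℝ) :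
    (F t b c) =O[atTop] (· ^ r) := by
  obtain ⟨D, hD⟩ := F_decay (t := t) h0 hb hc
  have h1 : (F t b c) =O[atTop] fun x : ℝ => exp (-c * x) := by
    refine Asymptotics.IsBigO.of_bound D ?_
    filter_upwards [eventually_ge_atTop 1] with x hx
    rw [Real.norm_eq_abs, abs_of_pos (exp_pos _)]
    have := hD x hx
    rwa [neg_mul]
  exact h1.trans (isLittleO_exp_neg_mul_rpow_atTop hc r).isBigO

/-- The Mellin transform of the series. -/
lemma F_mellin (hb0 : b 0 = 0) (hc : 0 < c) {w : ℂ}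
    (hK : MellinConvergent (fun x : ℝ => (KB t x : ℂ)) w)
    (hsum : Summable fun n : ℕ => ‖b n‖ * (n : ℝ) ^ (-w.re)) :
    HasSum (fun n : ℕ => b n * ((c * n : ℝ) : ℂ) ^ (-w) * mellin (fun x : ℝ => (KB t x : ℂ)) w)
      (mellin (F t b c) w) := by
  have hF : mellin (F t b c) w = ∫ x in Ioi (0 : ℝ),
      ∑' n : ℕ, (x : ℂ) ^ (w - 1) * (b n * (KB t (c * n * x) : ℂ)) := by
    rw [mellin]
    refine setIntegral_congr_fun measurableSet_Ioi fun x hx => ?_
    simp only [smul_eq_mul]
    rw [tsum_mul_left]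
    rfl
  rw [hF]
  have hterm : ∀ n : ℕ, b n * ((c * n : ℝ) : ℂ) ^ (-w) * mellin (fun x : ℝ => (KB t x : ℂ)) w =
      ∫ x in Ioi (0 : ℝ), (x : ℂ) ^ (w - 1) * (b n * (KB t (c * n * x) : ℂ)) := by
    intro n
    rcases Nat.eq_zero_or_pos n with rfl | hn
    · simp [hb0]
    · have hn0 : (0 : ℝ) < n := by exact_mod_cast hn
      have h1 := mellin_comp_mul_left (fun x : ℝ => (KB t x : ℂ)) w (a := c * n) (by positivity)
      rw [smul_eq_mul] at h1
      rw [mul_assoc, ← h1, mellin, ← integral_const_mul]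
      refine integral_congr_ae (Eventually.of_forall fun x => ?_)
      simp only [smul_eq_mul]
      ring
  simp_rw [hterm]
  refine hasSum_integral_of_summable_integral_norm ?_ ?_
  · intro n
    rcases Nat.eq_zero_or_pos n with rfl | hn
    · simp [hb0]
    · have hn0 : (0 : ℝ) < n := by exact_mod_cast hn
      have h1 : MellinConvergent (fun x : ℝ => (KB t ((c * n) * x) : ℂ)) w :=
        (MellinConvergent.comp_mul_left (f := fun x : ℝ => (KB t x : ℂ)) (a := c * n)
          (by positivity)).2 hK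
      have h2 := Integrable.const_mul h1 (b n)
      refine h2.congr (Eventually.of_forall fun x => ?_)
      simp only [smul_eq_mul]
      ring
  · -- norms
    set I : ℝ := ∫ x in Ioi (0 : ℝ), x ^ (w.re - 1) * |KB t x| with hI
    have hval : ∀ n : ℕ, (∫ x in Ioi (0 : ℝ), ‖(x : ℂ) ^ (w - 1) * (b n * (KB t (c * n * x) : ℂ))‖) =
        (c ^ (-w.re) * I) * (‖b n‖ * (n : ℝ) ^ (-w.re)) := by
      intro n
      rcases Nat.eq_zero_or_pos n with rfl | hn
      · simp [hb0]
      · have hn0 : (0 : ℝ) < n := by exact_mod_cast hn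
        have hcn : 0 < c * n := by positivity
        have h1 : (∫ x in Ioi (0 : ℝ), ‖(x : ℂ) ^ (w - 1) * (b n * (KB t (c * n * x) : ℂ))‖) =
            ∫ x in Ioi (0 : ℝ), (‖b n‖ * (c * n) ^ (1 - w.re)) *
              ((fun u : ℝ => u ^ (w.re - 1) * |KB t u|) (c * n * x)) := by
          refine setIntegral_congr_fun measurableSet_Ioi fun x hx => ?_
          have hx : (0 : ℝ) < x := hx
          simp only
          rw [norm_mul, norm_mul, Complex.norm_real, Real.norm_eq_abs,
            Complex.norm_cpow_eq_rpow_re_of_pos hx, Complex.sub_re, Complex.one_re,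
            Real.mul_rpow hcn.le hx.le]
          have h2 : (c * n : ℝ) ^ (1 - w.re) * (c * n : ℝ) ^ (w.re - 1) = 1 := by
            rw [← Real.rpow_add hcn]
            simp
          calc x ^ (w.re - 1) * (‖b n‖ * |KB t (c * n * x)|) =
              (c * n : ℝ) ^ (1 - w.re) * (c * n : ℝ) ^ (w.re - 1) *
              (x ^ (w.re - 1) * (‖b n‖ * |KB t (c * n * x)|)) := by rw [h2, one_mul]
            _ = _ := by ring
        rw [h1, integral_const_mul,
          integral_comp_mul_left_Ioi (fun u : ℝ => u ^ (w.re - 1) * |KB t u|) 0 hcn, mul_zero,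
          ← hI, smul_eq_mul]
        have h3 : (c * n : ℝ) ^ (1 - w.re) * (c * n)⁻¹ = c ^ (-w.re) * (n : ℝ) ^ (-w.re) := by
          rw [← Real.mul_rpow hc.le hn0.le, ← Real.rpow_neg_one, ← Real.rpow_add hcn]
          congr 1
          ring
        calc ‖b n‖ * (c * n) ^ (1 - w.re) * ((c * n)⁻¹ * I) =
            ‖b n‖ * I * ((c * n : ℝ) ^ (1 - w.re) * (c * n)⁻¹) := by ring
          _ = _ := by rw [h3]; ring
    simp_rw [hval]
    exact hsum.mul_left _

end

end Pool.Agent.Y96.DMC
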