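import Pool.Agent.W97.TW.Twist
import Pool.Agent.Y96.DMC.Series

/-!
# Twists of a Maass form of level `25`
-/

set_option autoImplicit false

open Real MeasureTheory UpperHalfPlane Filter Topology Set

namespace Pool.Agent.Y96.DMC

open Pool.Agent.Y672.DM Pool.Agent.W97.TW

section cusp

variable {t : ℝ} {a : ℕ → ℂ}

lemma U_gamma
    (hinv : ∀ γ ∈ CongruenceSubgroup.Gamma0 25, ∀ z : ℍ, U t a ((γ • z : ℍ) : ℂ) = U t a z)
    {a' b c d : ℤ} (hdet : a' * d - b * c = 1) (hc : (25 : ℤ) ∣ c) {w : ℂ} (hw : 0 < w.im) :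
    U t a ((a' * w + b) / (c * w + d)) = U t a w := by
  let γ : Matrix.SpecialLinearGroup (Fin 2) ℤ :=
    ⟨!![a', b; c, d], by rw [Matrix.det_fin_two_of]; exact hdet⟩
  have hγ : γ ∈ CongruenceSubgroup.Gamma0 25 := by
    rw [CongruenceSubgroup.Gamma0_mem]
    change ((c : ℤ) : ZMod 25) = 0
    rw [ZMod.intCast_zmod_eq_zero_iff_dvd]
    exact_mod_cast hc
  let z : ℍ := ⟨w, hw⟩
  have h1 := hinv γ hγ z
  have h2 : ((γ • z : ℍ) : ℂ) = (a' * w + b) / (c * w + d) := by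
    rw [coe_specialLinearGroup_apply]
    have e00 : γ 0 0 = a' := rfl
    have e01 : γ 0 1 = b := rfl
    have e10 : γ 1 0 = c := rfl
    have e11 : γ 1 1 = d := rfl
    have ez : (z : ℂ) = w := rfl
    rw [e00, e01, e10, e11, ez]
    simp only [algebraMap_int_eq, eq_intCast, Complex.ofReal_intCast]
  rw [h2] at h1
  exact h1

lemma U_cusp
    (hinv : ∀ γ ∈ CongruenceSubgroup.Gamma0 25, ∀ z : ℍ, U t a ((γ • z : ℍ) : ℂ) = U t a z)
    (hfr : ∀ z : ℍ, U t a (-1 / (25 * (z : ℂ))) = - U t a z)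
    {m : ℕ} (hm : 0 < m) {u v g : ℤ} (hg : 25 * u * v + 1 = g * m) {z : ℂ} (hz : 0 < z.im) :
    U t a (-1 / (25 * (m : ℂ) ^ 2 * z) + (u : ℂ) / m) = - U t a (z + (v : ℂ) / m) := by
  have hmC : (m : ℂ) ≠ 0 := by exact_mod_cast hm.ne'
  have hzC := ne_zero_of_im hz
  set w : ℂ := z + (v : ℂ) / m with hw
  have hwi : 0 < w.im := im_add_div hz v m
  have hwC := ne_zero_of_im hwi
  have hw'i : 0 < (-1 / ((25 : ℂ) * w)).im := by
    rw [neg_div, Complex.neg_im, one_div, Complex.inv_im, neg_div, neg_neg]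
    have h1 : 0 < ((25 : ℂ) * w).im := by
      rw [Complex.mul_im]
      simp only [Complex.re_ofNat, Complex.im_ofNat, zero_mul, add_zero]
      positivity
    exact div_pos h1 (Complex.normSq_pos.2 (ne_zero_of_im h1))
  have hgC : (25 : ℂ) * u * v + 1 = g * m := by exact_mod_cast hg
  have h1 := U_gamma hinv (a' := g) (b := u) (c := 25 * v) (d := m)
    (by linarith) (dvd_mul_right _ _) hw'i
  have h2 := hfr ⟨w, hwi⟩
  have h3 : ((⟨w, hwi⟩ : ℍ) : ℂ) = w := rfl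
  rw [h3] at h2
  rw [h2] at h1
  have hmw : (m : ℂ) * w = m * z + v := by rw [hw]; field_simp
  have h5 : (((25 * v : ℤ) : ℂ) * (-1 / ((25 : ℂ) * w)) + ((m : ℤ) : ℂ)) = (m : ℂ) * z / w := by
    push_cast
    field_simp
    linear_combination hmw
  have h6 : ((g : ℂ) * (-1 / ((25 : ℂ) * w)) + u) / ((m : ℂ) * z / w) =
      -1 / ((25 : ℂ) * (m : ℂ) ^ 2 * z) + (u : ℂ) / m := by
    field_simp
    linear_combination (25 * (u : ℂ)) * hmw + hgC
  rw [h5, h6] at h1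
  exact h1

/-- the twisted sum -/
noncomputable def V (t : ℝ) (a : ℕ → ℂ) {m : ℕ} [NeZero m] (χ : DirichletCharacter ℂ m) (z : ℂ) : ℂ :=
  ∑ r : ZMod m, χ r * U t a (z + ((r.val : ℤ) : ℂ) / m)

lemma V_feq
    (hinv : ∀ γ ∈ CongruenceSubgroup.Gamma0 25, ∀ z : ℍ, U t a ((γ • z : ℍ) : ℂ) = U t a z)
    (hfr : ∀ z : ℍ, U t a (-1 / (25 * (z : ℂ))) = - U t a z)
    {m : ℕ} [NeZero m] (hm : Nat.Coprime m 5) (χ : DirichletCharacter ℂ m)
    (hq : χ ^ 2 = 1) {z : ℂ} (hz : 0 < z.im) :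
    V t a χ (-1 / (25 * (m : ℂ) ^ 2 * z)) = - χ (-1) * V t a χ z := by
  have h25 : IsUnit (25 : ZMod m) := by
    have : IsUnit ((25 : ℕ) : ZMod m) := by
      rw [ZMod.isUnit_iff_coprime]
      have h := Nat.Coprime.pow_left 2 hm.symm
      norm_num at h
      exact h
    exact_mod_cast this
  have h5 : IsUnit (5 : ZMod m) := by
    have : IsUnit ((5 : ℕ) : ZMod m) := by
      rw [ZMod.isUnit_iff_coprime]
      exact hm.symm
    exact_mod_cast this
  have hχ25 : χ (-25) = χ (-1) := by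
    have h6 : (-25 : ZMod m) = -1 * (5 * 5) := by norm_num
    rw [h6, map_mul, map_mul]
    have h7 : χ (5 : ZMod m) * χ (5 : ZMod m) = 1 := by
      obtain ⟨u, hu⟩ := h5
      rw [← hu]
      have := congrArg (fun ψ : DirichletCharacter ℂ m => ψ (u : ZMod m)) hq
      simp only [MulChar.pow_apply_coe, MulChar.one_apply_coe] at this
      rw [← sq]
      exact this
    rw [h7, mul_one]
  have h8 : ∀ r : ZMod m, -(χ r * U t a (z + ((r.val : ℤ) : ℂ) / m)) =
      χ r * (- U t a (z + ((r.val : ℤ) : ℂ) / m)) := fun r => by ring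
  unfold V
  rw [neg_mul, ← mul_neg, ← Finset.sum_neg_distrib]
  simp_rw [h8]
  rw [← hχ25]
  refine reindex χ hq (25 : ZMod m) h25 _ _ fun r r' h => ?_
  obtain ⟨g, hg⟩ := exists_g (m := m) 25 (a := r) (a' := r') (by exact_mod_cast h)
  exact U_cusp hinv hfr (NeZero.pos m) hg hz

end cusp

section fourier

/-- the Gauss sum of a Dirichlet character -/
noncomputable def tau {m : ℕ} [NeZero m] (χ : DirichletCharacter ℂ m) : ℂ :=
  gaussSum χ (ZMod.stdAddChar (N := m))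

lemma sum_char {m : ℕ} [NeZero m] (χ : DirichletCharacter ℂ m) (hχ : χ.IsPrimitive)
    (hsq : χ ^ 2 = 1) (n : ℤ) :
    ∑ a : ZMod m, χ a * Complex.exp (2 * Real.pi * Complex.I * n * (((a.val : ℤ) : ℂ) / m)) =
      χ n * tau χ := by
  have hinv : χ⁻¹ = χ := by
    rw [inv_eq_iff_mul_eq_one, ← sq, hsq]
  have h1 := gaussSum_mulShift_of_isPrimitive (ZMod.stdAddChar (N := m)) hχ (n : ZMod m)
  rw [hinv] at h1
  change _ = χ n * gaussSum χ (ZMod.stdAddChar (N := m))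
  rw [← h1]
  unfold gaussSum
  refine Finset.sum_congr rfl fun a _ => ?_
  congr 1
  rw [AddChar.mulShift_apply]
  have h2 : (n : ZMod m) * a = ((n * a.val : ℤ) : ZMod m) := by
    push_cast
    rw [ZMod.natCast_zmod_val]
  rw [h2, ZMod.stdAddChar_coe]
  congr 1
  push_cast
  ring

lemma tau_ne_zero {m : ℕ} [NeZero m] (χ : DirichletCharacter ℂ m) (hχ : χ.IsPrimitive) :
    tau χ ≠ 0 := by
  intro h
  have h1 : ZMod.dft (fun a : ZMod m => χ a) = 0 := by
    funext k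
    have := DirichletCharacter.IsPrimitive.fourierTransform_eq_inv_mul_gaussSum hχ k
    rw [this]
    change χ⁻¹ (-k) * tau χ = 0
    rw [h, mul_zero]
  have h2 : (fun a : ZMod m => χ a) = 0 := by
    have := congrArg ZMod.dft.symm h1
    simpa using this
  have h3 := congrFun h2 1
  simp at h3

/-- `(e^{iθ} + χ(-1) e^{-iθ}) / 2` -/
noncomputable def E {m : ℕ} (χ : DirichletCharacter ℂ m) (θ : ℝ) : ℂ :=
  (Complex.exp (θ * Complex.I) + χ (-1) * Complex.exp (-(θ * Complex.I))) / 2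

lemma sum_cos {m : ℕ} [NeZero m] (χ : DirichletCharacter ℂ m) (hχ : χ.IsPrimitive)
    (hsq : χ ^ 2 = 1) (n : ℕ) (x : ℝ) :
    ∑ r : ZMod m, χ r * ((cos (2 * π * n * (x + (r.val : ℝ) / m)) : ℝ) : ℂ) =
      tau χ * χ n * E χ (2 * π * n * x) := by
  have h1 : ∀ r : ZMod m, χ r * ((cos (2 * π * n * (x + (r.val : ℝ) / m)) : ℝ) : ℂ) =
      (Complex.exp ((2 * π * n * x : ℝ) * Complex.I) / 2) *
        (χ r * Complex.exp (2 * Real.pi * Complex.I * (n : ℤ) * (((r.val : ℤ) : ℂ) / m))) +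
      (Complex.exp (-((2 * π * n * x : ℝ) * Complex.I)) / 2) *
        (χ r * Complex.exp (2 * Real.pi * Complex.I * (-(n : ℤ) : ℤ) * (((r.val : ℤ) : ℂ) / m))) := by
    intro r
    have h2 : ((cos (2 * π * n * (x + (r.val : ℝ) / m)) : ℝ) : ℂ) =
        (Complex.exp ((2 * π * n * x : ℝ) * Complex.I) *
          Complex.exp (2 * Real.pi * Complex.I * (n : ℤ) * (((r.val : ℤ) : ℂ) / m)) +
        Complex.exp (-((2 * π * n * x : ℝ) * Complex.I)) *
          Complex.exp (2 * Real.pi * Complex.I * (-(n : ℤ) : ℤ) * (((r.val : ℤ) : ℂ) / m))) / 2 := by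
      rw [Complex.ofReal_cos, Complex.cos, ← Complex.exp_add, ← Complex.exp_add]
      congr 2
      · congr 1
        push_cast
        ring
      · congr 1
        push_cast
        ring
    rw [h2]
    ring
  simp_rw [h1]
  rw [Finset.sum_add_distrib, ← Finset.mul_sum, ← Finset.mul_sum, sum_char χ hχ hsq,
    sum_char χ hχ hsq]
  have h3 : χ (((-(n : ℤ) : ℤ)) : ZMod m) = χ (-1) * χ (n : ZMod m) := by
    rw [← map_mul]
    congr 1
    push_cast
    ring
  rw [h3, Int.cast_natCast]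
  unfold E
  ring

variable {t : ℝ} {a : ℕ → ℂ} {C : ℝ} {k : ℕ}

lemma U_hasSum (h0 : a 0 = 0) (ha : ∀ n, ‖a n‖ ≤ C * (n : ℝ) ^ k) {x y : ℝ} (hy : 0 < y) {z : ℂ}
    (hx : z.re = x) (hzy : z.im = y) :
    HasSum (fun n : ℕ => a n * ((√y * KB t (2 * π * n * y) * cos (2 * π * n * x) : ℝ) : ℂ))
      (U t a z) := by
  unfold U
  rw [hx, hzy]
  refine Summable.hasSum ?_
  have h1 := (F_summable (t := t) h0 ha (c := 2 * π) (by positivity) hy).norm
  refine Summable.of_norm_bounded (h1.mul_left (√y)) fun n => ?_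
  rw [norm_mul, norm_mul, Complex.norm_real, Complex.norm_real, norm_mul, norm_mul,
    Real.norm_eq_abs, Real.norm_eq_abs, Real.norm_eq_abs, abs_of_nonneg (Real.sqrt_nonneg y)]
  have h2 := abs_cos_le_one (2 * π * n * x)
  calc ‖a n‖ * (√y * |KB t (2 * π * n * y)| * |cos (2 * π * n * x)|)
      ≤ ‖a n‖ * (√y * |KB t (2 * π * n * y)| * 1) := by gcongr
    _ = _ := by ring

lemma V_hasSum (h0 : a 0 = 0) (ha : ∀ n, ‖a n‖ ≤ C * (n : ℝ) ^ k) {m : ℕ} [NeZero m]
    (χ : DirichletCharacter ℂ m) (hχ : χ.IsPrimitive) (hsq : χ ^ 2 = 1) {x y : ℝ} (hy : 0 < y)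
    {z : ℂ} (hx : z.re = x) (hzy : z.im = y) :
    HasSum (fun n : ℕ => tau χ * (√y : ℝ) *
      (a n * χ n * (KB t (2 * π * n * y) : ℂ) * E χ (2 * π * n * x))) (V t a χ z) := by
  unfold V
  have h1 : HasSum (fun n : ℕ => ∑ r : ZMod m, χ r *
      (a n * ((√y * KB t (2 * π * n * y) * cos (2 * π * n * (x + (r.val : ℝ) / m)) : ℝ) : ℂ)))
      (∑ r : ZMod m, χ r * U t a (z + ((r.val : ℤ) : ℂ) / m)) := by
    refine hasSum_sum fun r _ => (U_hasSum h0 ha hy ?_ ?_).mul_left _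
    · have : ((r.val : ℤ) : ℂ) / m = (((r.val : ℝ) / m : ℝ) : ℂ) := by push_cast; rfl
      rw [Complex.add_re, this, Complex.ofReal_re, hx]
    · have : ((r.val : ℤ) : ℂ) / m = (((r.val : ℝ) / m : ℝ) : ℂ) := by push_cast; rfl
      rw [Complex.add_im, this, Complex.ofReal_im, hzy, add_zero]
  convert h1 using 2 with n
  have h2 : ∀ r : ZMod m, χ r *
      (a n * ((√y * KB t (2 * π * n * y) * cos (2 * π * n * (x + (r.val : ℝ) / m)) : ℝ) : ℂ)) =
      (a n * (√y : ℝ) * (KB t (2 * π * n * y) : ℂ)) *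
        (χ r * ((cos (2 * π * n * (x + (r.val : ℝ) / m)) : ℝ) : ℂ)) := by
    intro r
    push_cast
    ring
  simp_rw [h2]
  rw [← Finset.mul_sum, sum_cos χ hχ hsq]
  ring

end fourier

end Pool.Agent.Y96.DMC
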